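import Pool.Agent.N625.US.Conv
import Pool.Agent.TH522.DG.Local
import Pool.Agent.TH843.LR.Form

/-!
Local reductions from 3-SAT to unique games with imperfect completeness.
-/

set_option autoImplicit false

namespace Pool.Agent.N625.US

open Finset Pool.Agent.W888.GX Pool.Agent.TH700.UG

section
variable {n D d : ℕ} {L : ((Fin n → ZMod 2) → ℝ) →ₗ[ℝ] ℝ} {V A : Type} [Fintype V]

/-- composition of a functional with a local encoding, as a solution of the mixed hierarchy -/
theorem mixed_comp1 {k : ℕ} (hL : IsPseudoExpectation D L)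
    (enc : (Fin n → ZMod 2) → V → A)
    (hV : ∀ v, ∃ S : Finset (Fin n), S.card ≤ d ∧ Reads (fun z => enc z v) S)
    (hD : (k + 2) * d ≤ D) :
    Pool.Agent.TH522.UG.Mixed k (L.comp (LinearMap.funLeft ℝ ℝ enc)) := by
  classical
  choose S hS hR using hV
  have hreadU : ∀ (W : Finset V) (f : (V → A) → ℝ), Pool.Agent.TH522.UG.Dep W f →
      Reads (fun z => f (enc z)) (W.biUnion S) := by
    intro W f hf x y hxy
    refine hf _ _ fun v hv => ?_
    exact hR v x y fun i hi => hxy i (mem_biUnion.2 ⟨v, hv, hi⟩)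
  have hcardU : ∀ (W : Finset V), (W.biUnion S).card ≤ W.card * d := by
    intro W
    exact card_biUnion_le.trans ((Finset.sum_le_card_nsmul W _ d fun v _ => hS v).trans
        (by rw [smul_eq_mul]))
  refine ⟨?_, fun W hW f hf hf0 => ?_, fun W hW g hg hg0 c => ?_⟩
  · rw [LinearMap.comp_apply]
    exact hL.1
  · have h1 := hL.2 (fun z => Real.sqrt (f (enc z)))
      (mem_low (S := W.biUnion S)
      ((hcardU W).trans ((Nat.mul_le_mul_right d hW).trans hD))
      (hreadU W (fun x => Real.sqrt (f x)) fun x y h1 =>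
        congrArg Real.sqrt (hf x y h1)))
    have h2 : (fun z => (fun z => Real.sqrt (f (enc z))) z ^ 2) =
        fun z => f (enc z) := by
      funext z
      exact Real.sq_sqrt (hf0 _)
    rw [h2] at h1
    exact h1
  · have hmem : (fun z => ∑ w, Real.sqrt (g (enc z)) * c w (enc z w)) ∈
        LowDegree (Fin n) (ZMod 2) D := by
      have h0 : (fun z => ∑ w, Real.sqrt (g (enc z)) * c w (enc z w)) =
          (∑ w, fun z => Real.sqrt (g (enc z)) * c w (enc z w)) := by
        funext z
        rw [Finset.sum_apply]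
      rw [h0]
      refine Submodule.sum_mem _ fun w _ => ?_
      refine mem_low (S := (insert w W).biUnion S) ?_ ?_
      · refine (hcardU _).trans (le_trans (Nat.mul_le_mul_right d ?_) hD)
        have := card_insert_le w W
        omega
      · refine hreadU (insert w W) (fun x => Real.sqrt (g x) * c w (x w)) ?_
        intro x y h1
        show Real.sqrt (g x) * c w (x w) = Real.sqrt (g y) * c w (y w)
        rw [hg x y (fun i hi => h1 i (mem_insert_of_mem hi)), h1 w (mem_insert_self _ _)]
    have h1 := hL.2 _ hmem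
    have h2 : (fun z => (fun z => ∑ w, Real.sqrt (g (enc z)) * c w (enc z w)) z ^ 2) =
        fun z => g (enc z) * (∑ w, c w (enc z w)) ^ 2 := by
      funext z
      simp only []
      rw [← mul_sum, mul_pow, Real.sq_sqrt (hg0 _)]
    rw [h2] at h1
    exact h1

variable {E I : Type} [Fintype E] [DecidableEq A] {kk : ℕ}

/-- the value of the composed functional -/
theorem value_comp (hL : IsPseudoExpectation D L) (F : I → Clause kk n)
    (hF : ∀ i, ∀ u : (Fin n → ZMod 2) → ℝ, (∀ x, (Satisfies x (F i) → u x = 0) ∧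
      (¬ Satisfies x (F i) → u x = 1)) → L u = 0)
    (s t : E → V) (π : E → Equiv.Perm A) (ε : ℝ) (enc : (Fin n → ZMod 2) → V → A)
    (P : Type) [Fintype P] (T : P → Finset (Fin n)) (g : P → (Fin n → ZMod 2) → ℝ)
    (hT : ∀ p, (T p).card ≤ d ∧ Reads (g p) (T p) ∧ ∀ x, SatOn F (T p) x → 0 ≤ g p x)
    (hv : ∀ x, (violated s t π (enc x) : ℝ) = ε * Fintype.card E - ∑ p, g p x) (hd : d ≤ D) :
    (1 - ε) * (Fintype.card E : ℝ) ≤ ∑ e, (L.comp (LinearMap.funLeft ℝ ℝ enc))
      (Pool.Agent.H647R3.UG.sat (s e) (t e) (π e)) := by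
  classical
  have h1 : ∑ e, (L.comp (LinearMap.funLeft ℝ ℝ enc))
      (Pool.Agent.H647R3.UG.sat (s e) (t e) (π e)) =
      L (fun x => (Fintype.card E : ℝ) - violated s t π (enc x)) := by
    rw [← map_sum, LinearMap.comp_apply]
    congr 1
    funext x
    rw [LinearMap.funLeft_apply, Finset.sum_apply]
    unfold violated Pool.Agent.H647R3.UG.sat
    rw [card_filter]
    push_cast
    have h2 : (Fintype.card E : ℝ) = ∑ _e : E, (1 : ℝ) := by simp
    rw [h2, ← sum_sub_distrib]
    refine sum_congr rfl fun e _ => ?_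
    by_cases h3 : π e (enc x (s e)) = enc x (t e)
    · simp [h3]
    · simp [h3]
  have h2 : (fun x => (Fintype.card E : ℝ) - violated s t π (enc x)) =
      ((1 - ε) * (Fintype.card E : ℝ)) • (fun _ => (1 : ℝ)) + ∑ p, g p := by
    funext x
    rw [hv, Pi.add_apply, Pi.smul_apply, Finset.sum_apply, smul_eq_mul]
    ring
  rw [h1, h2, map_add, map_smul, hL.1, map_sum, smul_eq_mul, mul_one]
  have h3 : 0 ≤ ∑ p, L (g p) := sum_nonneg fun p _ =>
    pe_local hL F hF (T p) ((hT p).1.trans hd) (g p) (hT p).2.1 (hT p).2.2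
  linarith

end

end Pool.Agent.N625.US
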