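import Pool.Agent.N625.US.Small

/-!
Unique games with two sides: the whole range of the completeness, and few vertices.
-/

set_option autoImplicit false

namespace Pool.Agent.N625.US

open Finset Pool.Agent.H647R3.UG Pool.Agent.H573R3.SL Pool.Agent.TH522.UG Pool.Agent.TH522.US
  Pool.Agent.TH522.DG

section
variable {U V A : Type} [Fintype U] [Fintype V]

/-- the mixed hierarchy of the disjoint union of the two sides -/
theorem to2_mixed {k : ℕ} {L : ((U ⊕ V → A) → ℝ) →ₗ[ℝ] ℝ} (hL : Mixed k L) :
    Mixed2 k (L.comp (LinearMap.funLeft ℝ ℝ fun x : U ⊕ V → A =>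
      ((fun u => x (Sum.inl u), fun v => x (Sum.inr v)) : (U → A) × (V → A)))) := by
  have hdep : ∀ (S : Finset U) (T : Finset V) (f : (U → A) × (V → A) → ℝ), Dep2 S T f →
      Dep (S.disjSum T) fun x : U ⊕ V → A =>
        f (fun u => x (Sum.inl u), fun v => x (Sum.inr v)) := by
    intro S T f hf x y h
    exact hf _ _ (fun u hu => h (Sum.inl u) (inl_mem_disjSum.2 hu))
      (fun v hv => h (Sum.inr v) (inr_mem_disjSum.2 hv))
  refine ⟨hL.one, fun S T hST f hf hf0 => ?_, fun S T hST g hg hg0 c c' => ?_⟩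
  · exact hL.junta (S.disjSum T) (by rw [card_disjSum]; exact hST) _ (hdep S T f hf)
      fun x => hf0 _
  · have h1 := hL.psd (S.disjSum T) (by rw [card_disjSum]; exact hST) _ (hdep S T g hg)
      (fun x => hg0 _) (Sum.elim c c')
    refine h1.trans (le_of_eq ?_)
    rw [LinearMap.comp_apply]
    congr 1
    funext x
    rw [LinearMap.funLeft_apply, Fintype.sum_sum_type]
    simp only [Sum.elim_inl, Sum.elim_inr]

end

section
variable {U V E A : Type} [Fintype U] [Fintype V] [Fintype E] [Fintype A] [DecidableEq A]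

/-- a permutation has fibres with at most one element -/
theorem fib_perm (p : Equiv.Perm A) : Fib 1 (fun a => p a) := by
  intro b
  rw [card_le_one]
  intro a ha a' ha'
  simp only [mem_filter, mem_univ, true_and] at ha ha'
  exact p.injective (ha.trans ha'.symm)

theorem xlog_mono {x y : ℝ} (hx : 0 < x) (hxy : x ≤ y) (hy : y ≤ 1 / 2) :
    x * Real.log (2 / x) ≤ y * Real.log (2 / y) := by
  have hy0 : 0 < y := lt_of_lt_of_le hx hxy
  have h1 : Real.log (2 / x) = Real.log (2 / y) + Real.log (y / x) := by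
    rw [← Real.log_mul (by positivity) (by positivity)]
    congr 1
    field_simp
  have h2 : Real.log (y / x) ≤ y / x - 1 := Real.log_le_sub_one_of_pos (by positivity)
  have h3 : x * Real.log (y / x) ≤ y - x := by
    have h4 := mul_le_mul_of_nonneg_left h2 hx.le
    have h5 : x * (y / x - 1) = y - x := by field_simp
    linarith
  have h6 : 1 ≤ Real.log (2 / y) := by
    have h7 : Real.log 4 ≤ Real.log (2 / y) := by
      refine Real.log_le_log (by norm_num) ?_
      rw [le_div_iff₀ hy0]
      linarith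
    have h8 : Real.log 4 = 2 * Real.log 2 := by
      rw [show (4 : ℝ) = 2 ^ 2 by norm_num, Real.log_pow]
      norm_num
    have := Real.log_two_gt_d9
    linarith
  have h9 : (y - x) * 1 ≤ (y - x) * Real.log (2 / y) :=
    mul_le_mul_of_nonneg_left h6 (by linarith)
  rw [h1]
  nlinarith

/-- rounding of the mixed hierarchy, completeness `exp (-η)`, soundness `exp (-l) / 2 ^ 19` -/
theorem core (s : E → U) (t : E → V) (π : E → Equiv.Perm A) (η l x : ℝ) (hη : 0 < η)
    (hx : x = 2 ^ 20 * η / l) (hl0 : 0 < l) (hx1 : x ≤ 1 / 2)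
    (hln : l ≤ Real.log (Fintype.card U)) (k : ℕ)
    (hk : 2 ^ 21 * (Fintype.card U : ℝ) ^ (9 * (x * Real.log (2 / x))) ≤ k)
    (L : ((U ⊕ V → A) → ℝ) →ₗ[ℝ] ℝ) (hL : Mixed k L)
    (hval : Real.exp (-η) * (Fintype.card E : ℝ) ≤
      ∑ e, L (sat (Sum.inl (s e)) (Sum.inr (t e)) (π e))) :
    ∃ (f : U → A) (g : V → A), Real.exp (-l) / 2 ^ 19 * (Fintype.card E : ℝ) ≤
      ((univ.filter fun e => π e (f (s e)) = g (t e)).card : ℝ) := by
  classical
  have hlog : 0 < Real.log (Fintype.card U) := by linarith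
  have hn : 0 < Fintype.card U := by
    rcases Nat.eq_zero_or_pos (Fintype.card U) with h | h
    · rw [h] at hlog; simp at hlog
    · exact h
  have hn0 : (0 : ℝ) < Fintype.card U := by exact_mod_cast hn
  have hn1 : (1 : ℝ) ≤ Fintype.card U := by exact_mod_cast hn
  have hx0 : 0 < x := by rw [hx]; positivity
  have hxl : x * l = 2 ^ 20 * η := by rw [hx]; field_simp
  have hlη : 2 ^ 21 * η ≤ l := by nlinarith
  have hpow1 : (1 : ℝ) ≤ (Fintype.card U : ℝ) ^ (9 * (x * Real.log (2 / x))) := by
    refine Real.one_le_rpow hn1 ?_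
    have : 0 ≤ Real.log (2 / x) := Real.log_nonneg (by rw [le_div_iff₀ hx0]; linarith)
    positivity
  have hE0 : (0 : ℝ) ≤ Fintype.card E := Nat.cast_nonneg _
  rcases le_or_gt η (1 / 49152) with hsmall | hlarge
  · -- completeness near one
    obtain ⟨k', rfl⟩ : ∃ k', k = k' + 1 := by
      refine ⟨k - 1, ?_⟩
      have h1 : 1 ≤ k := by
        have : (1 : ℝ) ≤ k := by linarith
        exact_mod_cast this
      omega
    have hq0 : 0 < 24576 * η / l := by positivity
    have hq1 : 24576 * η / l ≤ x := by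
      rw [hx]
      refine div_le_div_of_nonneg_right ?_ hl0.le
      linarith
    have hmono := xlog_mono hq0 hq1 hx1
    obtain ⟨f, g, hfg⟩ := core_near s t π η l (24576 * η / l) hη hsmall (by linarith) hln rfl k' (by
      have h1 : (Fintype.card U : ℝ) ^ (9 * (24576 * η / l * Real.log (2 / (24576 * η / l)))) ≤
          (Fintype.card U : ℝ) ^ (9 * (x * Real.log (2 / x))) :=
        Real.rpow_le_rpow_of_exponent_le hn1 (by linarith)
      push_cast at hk
      linarith) L hL (by
      refine le_trans ?_ hval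
      refine mul_le_mul_of_nonneg_right ?_ hE0
      have := Real.add_one_le_exp (-η)
      linarith)
    refine ⟨f, g, le_trans ?_ hfg⟩
    refine mul_le_mul_of_nonneg_right ?_ hE0
    exact div_le_div_of_nonneg_left (Real.exp_pos _).le (by norm_num) (by norm_num)
  · -- completeness away from one
    obtain ⟨c, hc⟩ : ∃ c : ℝ, c = Real.exp (-η) := ⟨_, rfl⟩
    have hc0 : 0 < c := by rw [hc]; exact Real.exp_pos _
    have hc1 : c ≤ 1 := by rw [hc]; exact Real.exp_le_one_iff.2 (by linarith)
    have hc4 : Real.log (256 * (1 : ℕ) / c ^ 4) = Real.log 256 + 4 * η := by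
      rw [Nat.cast_one, mul_one, Real.log_div (by norm_num) (by positivity), Real.log_pow, hc,
        Real.log_exp]
      push_cast
      ring
    have h256 : Real.log 256 = 8 * Real.log 2 := by
      rw [show (256 : ℝ) = 2 ^ 8 by norm_num, Real.log_pow]
      norm_num
    have hl2 := Real.log_two_lt_d9
    have hl2' := Real.log_two_gt_d9
    have hΛ : Real.log (256 * (1 : ℕ) / c ^ 4) ≤ 2 ^ 19 * η := by
      rw [hc4, h256]
      linarith
    have hΛ0 : 0 < Real.log (256 * (1 : ℕ) / c ^ 4) := by
      rw [hc4, h256]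
      linarith
    set l' : ℝ := l - 5 * η with hl'
    have hl'2 : l / 2 ≤ l' := by rw [hl']; linarith
    have hl'0 : 0 < l' := by linarith
    have hq1 : Real.log (256 * (1 : ℕ) / c ^ 4) / l' ≤ x := by
      rw [hx, div_le_div_iff₀ hl'0 hl0]
      calc Real.log (256 * (1 : ℕ) / c ^ 4) * l ≤ 2 ^ 19 * η * l :=
            mul_le_mul_of_nonneg_right hΛ hl0.le
        _ = 2 ^ 20 * η * (l / 2) := by ring
        _ ≤ 2 ^ 20 * η * l' := mul_le_mul_of_nonneg_left hl'2 (by positivity)
    have hq0 : 0 < Real.log (256 * (1 : ℕ) / c ^ 4) / l' := by positivity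
    have hmono := xlog_mono hq0 hq1 hx1
    obtain ⟨f, g, hfg⟩ := Pool.Agent.TH522.DG.core (V := V) (W := U) (A := A) (B := A) t s
      (fun e a => π e a) 1 (fun e => fib_perm (π e)) c l' _ hc0 hc1 rfl hl'0 (by
        have h1 : Real.log (256 * (1 : ℕ) / c ^ 4) / l' ≤ 1 := by linarith
        rwa [div_le_one hl'0] at h1) (by linarith) k (by
        have h1 : (Fintype.card U : ℝ) ^ (9 * (Real.log (256 * (1 : ℕ) / c ^ 4) / l' *
            Real.log (2 / (Real.log (256 * (1 : ℕ) / c ^ 4) / l')))) ≤
            (Fintype.card U : ℝ) ^ (9 * (x * Real.log (2 / x))) :=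
          Real.rpow_le_rpow_of_exponent_le hn1 (by linarith)
        linarith) _ (to2_mixed hL) (by
        rw [hc]
        refine hval.trans (le_of_eq ?_)
        refine sum_congr rfl fun e _ => ?_
        rw [LinearMap.comp_apply]
        rfl)
    refine ⟨f, g, le_trans ?_ hfg⟩
    refine mul_le_mul_of_nonneg_right ?_ hE0
    refine div_le_div_of_nonneg_right ?_ (by norm_num)
    rw [hc, ← Real.exp_nat_mul, ← Real.exp_add]
    apply Real.exp_le_exp.2
    push_cast
    linarith

/-- few vertices on one side: the relaxation is exact -/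
theorem few [DecidableEq U] [DecidableEq V] (s : E → U) (t : E → V) (π : E → Equiv.Perm A) (k : ℕ)
    (L : ((U ⊕ V → A) → ℝ) →ₗ[ℝ] ℝ) (hL : Mixed k L) (hk : Fintype.card U ≤ k + 1) :
    ∃ (f : U → A) (g : V → A), ∑ e, L (sat (Sum.inl (s e)) (Sum.inr (t e)) (π e)) ≤
      ((univ.filter fun e => π e (f (s e)) = g (t e)).card : ℝ) := by
  classical
  have hne : Nonempty (U ⊕ V → A) := by
    by_contra hcon
    rw [not_nonempty_iff] at hcon
    have h1 := hL.one
    have h2 : (fun _ : U ⊕ V → A => (1 : ℝ)) = 0 := Subsingleton.elim _ _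
    rw [h2, map_zero] at h1
    exact zero_ne_one h1
  -- number of edges at `v` which are satisfied if `v` gets the label `b`
  set N : (U ⊕ V → A) → V → A → ℝ := fun x v b =>
    ∑ e, if t e = v then (if π e (x (Sum.inl (s e))) = b then (1 : ℝ) else 0) else 0 with hN
  rcases isEmpty_or_nonempty A with hA | hA
  · -- no vertices
    have hE : IsEmpty E := by
      obtain ⟨x⟩ := hne
      exact ⟨fun e => hA.false (x (Sum.inl (s e)))⟩
    obtain ⟨x⟩ := hne
    refine ⟨fun u => x (Sum.inl u), fun v => x (Sum.inr v), ?_⟩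
    rw [Finset.univ_eq_empty, Finset.sum_empty]
    exact Nat.cast_nonneg _
  have hmax : ∀ x v, ∃ b, ∀ b', N x v b' ≤ N x v b := fun x v => Finite.exists_max (N x v)
  choose y hy using hmax
  -- the total
  set B : (U ⊕ V → A) → ℝ := fun x => ∑ v, N x v (y x v) with hB
  obtain ⟨x0, hx0⟩ := Finite.exists_max B
  have hNdep : ∀ x x' : U ⊕ V → A, (∀ u ∈ (univ.map Function.Embedding.inl : Finset (U ⊕ V)),
      x u = x' u) → N x = N x' := by
    intro x x' h
    funext v b
    simp only [hN]
    refine sum_congr rfl fun e _ => ?_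
    rw [h (Sum.inl (s e)) (by simp)]
  have hNmax : ∀ x x' : U ⊕ V → A, N x = N x' → ∀ v, N x v (y x v) = N x' v (y x' v) := by
    intro x x' h v
    refine le_antisymm ?_ ?_
    · rw [h]
      exact hy x' v _
    · rw [← h]
      exact hy x v _
  have h1 : ∀ v, 0 ≤ L (fun x => N x v (y x v) - N x v (x (Sum.inr v))) := by
    intro v
    refine hL.junta (insert (Sum.inr v) (univ.map Function.Embedding.inl)) ?_ _ ?_ fun x => ?_
    · refine (card_insert_le _ _).trans ?_
      rw [card_map, card_univ]
      omega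
    · intro x x' h
      have h2 := hNdep x x' fun u hu => h u (mem_insert_of_mem hu)
      have h3 := hNmax x x' h2 v
      show N x v (y x v) - N x v (x (Sum.inr v)) = N x' v (y x' v) - N x' v (x' (Sum.inr v))
      rw [h3, h2, h _ (mem_insert_self _ _)]
    · have := hy x v (x (Sum.inr v))
      linarith
  have h2 : 0 ≤ L (fun x => B x0 - B x) := by
    refine hL.junta (univ.map Function.Embedding.inl) ?_ _ ?_ fun x => ?_
    · rw [card_map, card_univ]
      omega
    · intro x x' h
      have h3 := hNdep x x' h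
      show B x0 - B x = B x0 - B x'
      congr 1
      simp only [hB]
      exact sum_congr rfl fun v _ => hNmax x x' h3 v
    · have := hx0 x
      linarith
  have h3 : L (fun x => B x0 - B x) = B x0 - L B := by
    have h4 : (fun x => B x0 - B x) = B x0 • (fun _ : U ⊕ V → A => (1 : ℝ)) - B := by
      funext x
      simp
    rw [h4, map_sub, map_smul, hL.one, smul_eq_mul, mul_one]
  have h4 : ∑ e, L (sat (Sum.inl (s e)) (Sum.inr (t e)) (π e)) ≤ L B := by
    have h5 : (∑ v, fun x : U ⊕ V → A => N x v (y x v) - N x v (x (Sum.inr v))) =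
        B - ∑ e, sat (Sum.inl (s e)) (Sum.inr (t e)) (π e) := by
      funext x
      rw [Finset.sum_apply, Pi.sub_apply, Finset.sum_apply, sum_sub_distrib]
      congr 1
      simp only [hN]
      rw [sum_comm]
      refine sum_congr rfl fun e _ => ?_
      rw [sum_ite_eq, if_pos (mem_univ _)]
      unfold sat
      rfl
    have h6 := sum_nonneg fun v (_ : v ∈ (univ : Finset V)) => h1 v
    rw [← map_sum, h5, map_sub, map_sum] at h6
    linarith
  refine ⟨fun u => x0 (Sum.inl u), fun v => y x0 v, ?_⟩
  have h7 : B x0 = ((univ.filter fun e => π e (x0 (Sum.inl (s e))) = y x0 (t e)).card : ℝ) := by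
    simp only [hB, hN]
    rw [sum_comm, card_filter]
    push_cast
    refine sum_congr rfl fun e _ => ?_
    rw [sum_ite_eq, if_pos (mem_univ _)]
  rw [← h7]
  linarith

end

end Pool.Agent.N625.US
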